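import Pool.Agent.N931.PN.Stm

set_option autoImplicit false

open H974 H12S H389NS H984N H984P H342P Finset
open Pool.Agent.N116.EW Pool.Agent.N931.PN

namespace Pool.Agent.N954.PN

/-! ### Boxes -/

theorem mem_blk {z : Vtx} {m : ℕ} {g : Edg} :
    g ∈ blk z m ↔ sd (src g) z ≤ m ∧ sd (tgt g) z ≤ m := by
  obtain ⟨x, y, b⟩ := g
  unfold blk sd
  cases b
  · rw [mem_RE_false, src_mk, tgt_false]
    simp only [max_le_iff, abs_le]
    omega
  · rw [mem_RE_true, src_mk, tgt_true]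
    simp only [max_le_iff, abs_le]
    omega

theorem face_blk {z : Vtx} {m : ℕ} {g : Edg} (h : g ∈ blk z m) :
    sd (dsrc g) z ≤ m + 1 ∧ sd (dtgt g) z ≤ m + 1 := by
  obtain ⟨x, y, b⟩ := g
  unfold blk at h
  unfold sd
  cases b
  · rw [mem_RE_false] at h
    rw [dsrc_false, dtgt_mk]
    simp only [max_le_iff, abs_le]
    omega
  · rw [mem_RE_true] at h
    rw [dsrc_true, dtgt_mk]
    simp only [max_le_iff, abs_le]
    omega

theorem adj_blk {z : Vtx} {m : ℕ} {g : Edg} {u w : Vtx}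
    (h : (src g = u ∧ tgt g = w) ∨ (src g = w ∧ tgt g = u)) (hu : sd u z < m) : g ∈ blk z m := by
  obtain ⟨x, y, b⟩ := g
  rw [mem_blk]
  unfold sd at *
  rcases h with ⟨rfl, rfl⟩ | ⟨rfl, rfl⟩ <;> cases b <;>
    simp only [src_mk, tgt_false, tgt_true, max_le_iff, max_lt_iff, abs_le, abs_lt] at * <;> omega

/-- First exit. -/
theorem first_exit {S : Set Edg} {z u w : Vtx} {R : ℕ} (hu : sd u z ≤ R) (h : Reach S u w)
    (hw : (R : ℤ) ≤ sd w z) : ∃ w', sd w' z = R ∧ Reach (S ∩ ↑(blk z R)) u w' := by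
  have key : ∀ w, Reach S u w → (Reach (S ∩ ↑(blk z R)) u w ∧ sd w z ≤ R) ∨
      ∃ w', sd w' z = R ∧ Reach (S ∩ ↑(blk z R)) u w' := by
    intro w h
    induction h with
    | refl => exact Or.inl ⟨Reach.refl _ _, hu⟩
    | @tail a b _ hs ih =>
      rcases ih with ⟨h1, h2⟩ | h1
      · rcases eq_or_lt_of_le h2 with h3 | h3
        · exact Or.inr ⟨a, h3, h1⟩
        · obtain ⟨g, hg, hg'⟩ := hs
          have hb : g ∈ blk z R := adj_blk hg' h3
          left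
          refine ⟨h1.trans (Adj.reach ⟨g, ⟨hg, hb⟩, hg'⟩), ?_⟩
          rcases hg' with ⟨_, rfl⟩ | ⟨rfl, _⟩
          · exact (mem_blk.mp hb).2
          · exact (mem_blk.mp hb).1
      · exact Or.inr h1
  rcases key w h with ⟨h1, h2⟩ | h1
  · exact ⟨w, le_antisymm h2 hw, h1⟩
  · exact h1

/-- Last exit. -/
theorem last_exit {S : Set Edg} {z u w : Vtx} {d : ℕ} (hu : sd u z ≤ d) (h : Reach S u w) :
    ∃ u', sd u' z ≤ d ∧ Reach S u u' ∧ Reach (S \ ↑(blk z d)) u' w := by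
  induction h with
  | refl => exact ⟨u, hu, Reach.refl _ _, Reach.refl _ _⟩
  | @tail a b hab hs ih =>
    obtain ⟨u', h1, h2, h3⟩ := ih
    obtain ⟨g, hg, hg'⟩ := hs
    by_cases hb : g ∈ blk z d
    · refine ⟨b, ?_, Reach.trans hab (Adj.reach ⟨g, hg, hg'⟩), Reach.refl _ _⟩
      rcases hg' with ⟨_, rfl⟩ | ⟨rfl, _⟩
      · exact (mem_blk.mp hb).2
      · exact (mem_blk.mp hb).1
    · exact ⟨u', h1, h2, h3.trans (Adj.reach ⟨g, ⟨hg, hb⟩, hg'⟩)⟩

/-- Last exit of a dual path. -/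
theorem dlast_exit {S : Set Edg} {z u w : Vtx} {d : ℕ} (hu : sd u z ≤ d + 1) (h : DReach S u w) :
    ∃ u', sd u' z ≤ d + 1 ∧ DReach (S \ ↑(blk z d)) u' w := by
  induction h with
  | refl => exact ⟨u, hu, DReach.refl _ _⟩
  | @tail a b hab hs ih =>
    obtain ⟨u', h1, h3⟩ := ih
    obtain ⟨g, hg, hg'⟩ := hs
    by_cases hb : g ∈ blk z d
    · refine ⟨b, ?_, DReach.refl _ _⟩
      rcases hg' with ⟨_, rfl⟩ | ⟨rfl, _⟩
      · exact (face_blk hb).2
      · exact (face_blk hb).1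
    · exact ⟨u', h1, h3.trans (DAdj.reach ⟨g, ⟨hg, hb⟩, hg'⟩)⟩

/-- A dual path in `S` stays in `E` or meets an edge of `S` outside of `E`. -/
theorem dual_dich {S E : Set Edg} {f g : Vtx} (h : DReach S f g) :
    DReach (S ∩ E) f g ∨ ∃ e' ∈ S \ E, DReach S f (dtgt e') := by
  induction h with
  | refl => exact Or.inl (DReach.refl _ _)
  | @tail a b hab hs ih =>
    rcases ih with h1 | h1
    · obtain ⟨g, hg, hg'⟩ := hs
      by_cases hE : g ∈ E
      · exact Or.inl (h1.trans (DAdj.reach ⟨g, ⟨hg, hE⟩, hg'⟩))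
      · right
        refine ⟨g, ⟨hg, hE⟩, ?_⟩
        rcases hg' with ⟨h2, h3⟩ | ⟨h2, h3⟩
        · exact DReach.trans hab (DAdj.reach ⟨g, hg, Or.inl ⟨h2, rfl⟩⟩)
        · rw [h3]; exact hab
    · exact Or.inr h1

/-! ### Rows and columns -/

theorem row_join {U : Set Edg} {y p q : ℤ} (hpq : p ≤ q)
    (h : ∀ x, p < x → x ≤ q → ((x, y, false) : Edg) ∈ U) : DReach U (p, y) (q, y) := by
  obtain ⟨n, hn⟩ := Int.eq_ofNat_of_zero_le (sub_nonneg.mpr hpq)
  have : q = p + n := by omega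
  subst this
  clear hn hpq
  induction n with
  | zero => simpa using DReach.refl U (p, y)
  | succ n ih =>
    refine (ih fun x h1 h2 => h x h1 (by push_cast; omega)).trans ?_
    refine DAdj.reach ⟨(p + ((n + 1 : ℕ) : ℤ), y, false), h _ (by push_cast; omega) le_rfl,
      Or.inl ⟨?_, rfl⟩⟩
    rw [dsrc_false]
    ext
    · push_cast; ring
    · rfl

theorem col_join {U : Set Edg} {x p q : ℤ} (hpq : p ≤ q)
    (h : ∀ y, p < y → y ≤ q → ((x, y, true) : Edg) ∈ U) : DReach U (x, p) (x, q) := by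
  obtain ⟨n, hn⟩ := Int.eq_ofNat_of_zero_le (sub_nonneg.mpr hpq)
  have : q = p + n := by omega
  subst this
  clear hn hpq
  induction n with
  | zero => simpa using DReach.refl U (x, p)
  | succ n ih =>
    refine (ih fun y h1 h2 => h y h1 (by push_cast; omega)).trans ?_
    refine DAdj.reach ⟨(x, p + ((n + 1 : ℕ) : ℤ), true), h _ (by push_cast; omega) le_rfl,
      Or.inl ⟨?_, rfl⟩⟩
    rw [dsrc_true]
    ext
    · rfl
    · push_cast; ring

theorem row_join' {U : Set Edg} {y p q a b : ℤ} (h1 : a - 1 ≤ p) (h2 : p ≤ b) (h3 : a - 1 ≤ q)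
    (h4 : q ≤ b) (h : ∀ x, a ≤ x → x ≤ b → ((x, y, false) : Edg) ∈ U) :
    DReach U (p, y) (q, y) := by
  rcases le_total p q with hpq | hpq
  · exact row_join hpq fun x h5 h6 => h x (by omega) (by omega)
  · exact (row_join hpq fun x h5 h6 => h x (by omega) (by omega)).symm

theorem col_join' {U : Set Edg} {x p q a b : ℤ} (h1 : a - 1 ≤ p) (h2 : p ≤ b) (h3 : a - 1 ≤ q)
    (h4 : q ≤ b) (h : ∀ y, a ≤ y → y ≤ b → ((x, y, true) : Edg) ∈ U) :
    DReach U (x, p) (x, q) := by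
  rcases le_total p q with hpq | hpq
  · exact col_join hpq fun x h5 h6 => h x (by omega) (by omega)
  · exact (col_join hpq fun x h5 h6 => h x (by omega) (by omega)).symm

/-- A set of horizontal edges (columns of faces) and of vertical edges (rows of faces). -/
theorem grid_join {U : Set Edg} {a b c1 d1 a1 b1 c d : ℤ}
    (hU1 : ∀ x y, ((x, y, true) : Edg) ∈ U ↔ (a ≤ x ∧ x ≤ b) ∧ c1 ≤ y ∧ y ≤ d1)
    (hU2 : ∀ x y, ((x, y, false) : Edg) ∈ U ↔ (a1 ≤ x ∧ x ≤ b1) ∧ c ≤ y ∧ y ≤ d)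
    (h1 : a1 - 1 ≤ a) (h2 : b ≤ b1) (h3 : c1 - 1 ≤ c) (h4 : d ≤ d1) {x0 y0 : ℤ}
    (hx : a ≤ x0 ∧ x0 ≤ b) (hy : c ≤ y0 ∧ y0 ≤ d) {g : Edg} (hg : g ∈ U) :
    DReach U (dtgt g) (x0, y0) := by
  obtain ⟨x, y, t⟩ := g
  rw [dtgt_mk]
  cases t
  · rw [hU2] at hg
    refine DReach.trans (v := (x0, y)) ?_ ?_
    · exact row_join' (a := a1) (b := b1) (by omega) (by omega) (by omega) (by omega)
        fun x' h5 h6 => (hU2 _ _).mpr ⟨⟨h5, h6⟩, hg.2⟩
    · exact col_join' (a := c1) (b := d1) (by omega) (by omega) (by omega) (by omega)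
        fun y' h5 h6 => (hU1 _ _).mpr ⟨hx, h5, h6⟩
  · rw [hU1] at hg
    refine DReach.trans (v := (x, y0)) ?_ ?_
    · exact col_join' (a := c1) (b := d1) (by omega) (by omega) (by omega) (by omega)
        fun y' h5 h6 => (hU1 _ _).mpr ⟨hg.1, h5, h6⟩
    · exact row_join' (a := a1) (b := b1) (by omega) (by omega) (by omega) (by omega)
        fun x' h5 h6 => (hU2 _ _).mpr ⟨⟨h5, h6⟩, hy⟩

/-- The faces next to the edges of the box outside of the rectangle are joined. -/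
theorem out_join {D : Dm} {z : Vtx} {R : ℕ} (hR : 1 ≤ R) (hN : Near1 D z R) {g g' : Edg}
    (hg : g ∈ (↑(blk z R) : Set Edg) \ ↑D.edges) (hg' : g' ∈ (↑(blk z R) : Set Edg) \ ↑D.edges) :
    DReach ((↑(blk z R) : Set Edg) \ ↑D.edges) (dtgt g) (dtgt g') := by
  obtain ⟨⟨⟨i1, i2⟩, i3, i4⟩, hN⟩ := hN
  suffices h : ∃ x0 y0 : ℤ, ∀ g'' ∈ (↑(blk z R) : Set Edg) \ ↑D.edges,
      DReach ((↑(blk z R) : Set Edg) \ ↑D.edges) (dtgt g'') (x0, y0) by
    obtain ⟨x0, y0, h⟩ := h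
    exact (h g hg).trans (h g' hg').symm
  have e1 : ∀ x y, ((x, y, true) : Edg) ∈ (↑(blk z R) : Set Edg) \ ↑D.edges ↔
      (z.1 - R ≤ x ∧ x < z.1 + R ∧ z.2 - R ≤ y ∧ y ≤ z.2 + R) ∧
        ¬ (D.l ≤ x ∧ x < D.r ∧ 0 ≤ y ∧ y ≤ D.h) := by
    intro x y
    simp only [Set.mem_diff, Finset.mem_coe, blk, Dm.edges, mem_RE_true]
  have e2 : ∀ x y, ((x, y, false) : Edg) ∈ (↑(blk z R) : Set Edg) \ ↑D.edges ↔
      (z.1 - R ≤ x ∧ x ≤ z.1 + R ∧ z.2 - R ≤ y ∧ y < z.2 + R) ∧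
        ¬ (D.l ≤ x ∧ x ≤ D.r ∧ 0 ≤ y ∧ y < D.h) := by
    intro x y
    simp only [Set.mem_diff, Finset.mem_coe, blk, Dm.edges, mem_RE_false]
  have hR' : (1 : ℤ) ≤ R := by exact_mod_cast hR
  rcases hN with hN | hN | hN | hN
  · -- bottom
    refine ⟨z.1, -1, fun g'' hg'' => ?_⟩
    have hc : z.2 - R ≤ -1 := by
      obtain ⟨x, y, t⟩ := g''
      cases t
      · rw [e2] at hg''; omega
      · rw [e1] at hg''; omega
    refine grid_join (a := z.1 - R) (b := z.1 + R - 1) (c1 := z.2 - R) (d1 := -1) (a1 := z.1 - R)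
      (b1 := z.1 + R) (c := z.2 - R) (d := -1) ?_ ?_ (by omega) (by omega) (by omega) (by omega)
      (by omega) (by omega) hg''
    · intro x y; rw [e1]; omega
    · intro x y; rw [e2]; omega
  · -- top
    refine ⟨z.1, D.h, fun g'' hg'' => ?_⟩
    have hc : D.h ≤ z.2 + R - 1 := by
      obtain ⟨x, y, t⟩ := g''
      cases t
      · rw [e2] at hg''; omega
      · rw [e1] at hg''; omega
    refine grid_join (a := z.1 - R) (b := z.1 + R - 1) (c1 := D.h + 1) (d1 := z.2 + R)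
      (a1 := z.1 - R)
      (b1 := z.1 + R) (c := D.h) (d := z.2 + R - 1) ?_ ?_ (by omega) (by omega) (by omega)
      (by omega) (by omega) (by omega) hg''
    · intro x y; rw [e1]; omega
    · intro x y; rw [e2]; omega
  · -- left
    refine ⟨D.l - 1, z.2, fun g'' hg'' => ?_⟩
    have hc : z.1 - R ≤ D.l - 1 := by
      obtain ⟨x, y, t⟩ := g''
      cases t
      · rw [e2] at hg''; omega
      · rw [e1] at hg''; omega
    refine grid_join (a := z.1 - R) (b := D.l - 1) (c1 := z.2 - R) (d1 := z.2 + R)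
      (a1 := z.1 - R)
      (b1 := D.l - 1) (c := z.2 - R) (d := z.2 + R - 1) ?_ ?_ (by omega) (by omega) (by omega)
      (by omega) (by omega) (by omega) hg''
    · intro x y; rw [e1]; omega
    · intro x y; rw [e2]; omega
  · -- right
    refine ⟨D.r, z.2, fun g'' hg'' => ?_⟩
    have hc : D.r ≤ z.1 + R - 1 := by
      obtain ⟨x, y, t⟩ := g''
      cases t
      · rw [e2] at hg''; omega
      · rw [e1] at hg''; omega
    refine grid_join (a := D.r) (b := z.1 + R - 1) (c1 := z.2 - R) (d1 := z.2 + R)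
      (a1 := D.r + 1)
      (b1 := z.1 + R) (c := z.2 - R) (d := z.2 + R - 1) ?_ ?_ (by omega) (by omega) (by omega)
      (by omega) (by omega) (by omega) hg''
    · intro x y; rw [e1]; omega
    · intro x y; rw [e2]; omega

theorem reach_clu {D : Dm} {F : Finset Edg} {u w : Vtx} {S : Set Edg} (hS : S ⊆ D.cfg F)
    (hu : u ∈ D.clu F) (h : Reach S u w) : w ∈ D.clu F :=
  Reach.trans (u := ((0 : ℤ), (0 : ℤ))) hu (h.mono hS)

theorem VF.main : S_VF := by
  classical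
  intro D hD G B hG z d R ρ hN hd hdR hRρ hB hwv hbad
  obtain ⟨e, heG, heF, x, v, y, hEn, hy, hx, hv, hyG, w, hvw, hreach⟩ := hbad
  have heB : e ∈ B := by
    by_contra h
    exact heF (Or.inl (by simp [heG, h]))
  have heb : e ∈ blk z d := hB heB
  have hends := mem_blk.mp heb
  have hxz : sd x z ≤ d := by
    rcases hEn with ⟨rfl, _⟩ | ⟨rfl, _⟩
    · exact hends.1
    · exact hends.2
  have hvz : sd v z ≤ d := by
    rcases hEn with ⟨_, rfl⟩ | ⟨_, rfl⟩
    · exact hends.2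
    · exact hends.1
  have hdR' : (d : ℤ) + 4 ≤ R := by exact_mod_cast hdR
  have hRρ' : (R : ℤ) + d + 4 ≤ ρ := by exact_mod_cast hRρ
  -- no wired edge in the box
  have hwir : ∀ g ∈ blk z R, g ∉ D.wir := by
    intro g hg hg'
    have h1 := hwv (src g) ⟨g, hg', Or.inl rfl⟩
    have h2 := (mem_blk.mp hg).1
    omega
  have h00 : (R : ℤ) + 2 ≤ sd (0, 0) z := by
    refine hwv _ ⟨(-1, 0, true), Or.inr (Or.inr ⟨rfl, rfl, ?_, ?_⟩), Or.inr ?_⟩
    · have := hD.l_neg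
      simp only
      omega
    · norm_num
    · rw [tgt_true]; norm_num
  -- first arm
  have hxr : Reach (D.cfg (G \ B)) x (0, 0) := Reach.symm hx
  obtain ⟨w1, hw1, hr1⟩ := first_exit (z := z) (R := R) (by omega) hxr (by omega)
  obtain ⟨u1, hu1, hru1, hr1'⟩ := last_exit hxz hr1
  -- second arm
  set SV : Set Edg := {g | g ∈ D.cfg G ∧ src g ∉ D.clu (G \ B) ∧ tgt g ∉ D.clu (G \ B)} with hSV
  have hwz : (R : ℤ) ≤ sd w z := by
    have : sd v w ≤ sd v z + sd w z := by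
      unfold sd
      simp only [max_le_iff]
      have t1 : |v.1 - w.1| ≤ |v.1 - z.1| + |w.1 - z.1| := by
        have := abs_sub_le v.1 z.1 w.1
        rwa [abs_sub_comm z.1 w.1] at this
      have t2 : |v.2 - w.2| ≤ |v.2 - z.2| + |w.2 - z.2| := by
        have := abs_sub_le v.2 z.2 w.2
        rwa [abs_sub_comm z.2 w.2] at this
      have m1 := le_max_left |v.1 - z.1| |v.2 - z.2|
      have m2 := le_max_right |v.1 - z.1| |v.2 - z.2|
      have m3 := le_max_left |w.1 - z.1| |w.2 - z.2|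
      have m4 := le_max_right |w.1 - z.1| |w.2 - z.2|
      constructor <;> omega
    omega
  obtain ⟨w2, hw2, hr2⟩ := first_exit (z := z) (R := R) (by omega) hreach hwz
  obtain ⟨u2, hu2, hru2, hr2'⟩ := last_exit hvz hr2
  have hAN : ∀ g, g ∈ blk z R → g ∉ blk z d → g ∈ AN z d R := fun g h1 h2 =>
    Finset.mem_sdiff.mpr ⟨h1, h2⟩
  refine ⟨⟨u1, w1, u2, w2, ⟨hu1, hw1.ge, ?_⟩, ⟨hu2, hw2.ge, ?_⟩, ?_⟩, ?_⟩
  · refine hr1'.mono ?_
    rintro g ⟨⟨h1, h2⟩, h3⟩
    refine ⟨?_, hAN g h2 h3⟩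
    rcases h1 with h1 | h1
    · exact (Finset.mem_sdiff.mp h1).1
    · exact absurd h1 (hwir g h2)
  · refine hr2'.mono ?_
    rintro g ⟨⟨⟨h1, _⟩, h2⟩, h3⟩
    refine ⟨?_, hAN g h2 h3⟩
    rcases h1 with h1 | h1
    · exact h1
    · exact absurd h1 (hwir g h2)
  · intro hcon
    have h1 : u1 ∈ D.clu (G \ B) := reach_clu (fun g hg => hg.1) hx hru1
    have h2 : u2 ∈ D.clu (G \ B) := by
      refine reach_clu ?_ h1 hcon
      rintro g ⟨h3, h4⟩
      refine Or.inl ?_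
      have h5 := Finset.mem_sdiff.mp h4
      exact Finset.mem_coe.mpr (Finset.mem_sdiff.mpr ⟨h3, fun h6 => h5.2 (hB h6)⟩)
    have h3 : ∀ q, Reach (SV ∩ ↑(blk z R)) v q → q ∉ D.clu (G \ B) := by
      intro q hq
      induction hq with
      | refl => exact hv
      | tail _ hs _ =>
        obtain ⟨g, ⟨hg, _⟩, hg'⟩ := hs
        rcases hg' with ⟨_, rfl⟩ | ⟨rfl, _⟩
        · exact hg.2.2
        · exact hg.2.1
    exact h3 u2 hru2 h2
  · -- dual arm
    set F2 : Set Edg := (↑(G \ B) ∪ {g | g ∈ G ∧ src g ∉ D.clu (G \ B) ∧ tgt g ∉ D.clu (G \ B)}) ∩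
      ↑(blk z R) with hF2
    have hF2G : F2 ⊆ ↑G := by
      rintro g ⟨h1 | h1, _⟩
      · exact (Finset.mem_sdiff.mp h1).1
      · exact h1.1
    have hF2Q : F2 ⊆ ↑(RE (z.1 - R) (z.1 + R) (z.2 - R) (z.2 + R)) := fun g hg => hg.2
    have heQ : e ∈ RE (z.1 - R) (z.1 + R) (z.2 - R) (z.2 + R) := by
      have : e ∈ blk z R := mem_blk.mpr ⟨by omega, by omega⟩
      exact this
    have heF2 : e ∉ F2 := by
      rintro ⟨h1 | h1, _⟩
      · exact heF (Or.inl h1)
      · rcases hEn with ⟨h2, _⟩ | ⟨h2, _⟩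
        · exact h1.2.1 (h2 ▸ hx)
        · exact h1.2.2 (h2 ▸ hx)
    have hbd : ∀ q, sd q z = R → q ∈ bdR (z.1 - R) (z.1 + R) (z.2 - R) (z.2 + R) := by
      intro q hq
      unfold sd at hq
      have m1 := le_max_left |q.1 - z.1| |q.2 - z.2|
      have m2 := le_max_right |q.1 - z.1| |q.2 - z.2|
      have m3 : max |q.1 - z.1| |q.2 - z.2| = |q.1 - z.1| ∨
          max |q.1 - z.1| |q.2 - z.2| = |q.2 - z.2| := max_choice _ _
      unfold bdR inR
      simp only [Set.mem_ofPred_eq]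
      rcases abs_cases (q.1 - z.1) with ⟨a1, a2⟩ | ⟨a1, a2⟩ <;>
        rcases abs_cases (q.2 - z.2) with ⟨b1, b2⟩ | ⟨b1, b2⟩ <;> omega
    have hxb : ∃ w' ∈ bdR (z.1 - R) (z.1 + R) (z.2 - R) (z.2 + R), Reach F2 x w' := by
      refine ⟨w1, hbd w1 hw1, hr1.mono ?_⟩
      rintro g ⟨h1, h2⟩
      refine ⟨Or.inl ?_, h2⟩
      rcases h1 with h1 | h1
      · exact h1
      · exact absurd h1 (hwir g h2)
    have hvb : ∃ w' ∈ bdR (z.1 - R) (z.1 + R) (z.2 - R) (z.2 + R), Reach F2 v w' := by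
      refine ⟨w2, hbd w2 hw2, hr2.mono ?_⟩
      rintro g ⟨h1, h2⟩
      refine ⟨Or.inr ⟨?_, h1.2.1, h1.2.2⟩, h2⟩
      rcases h1.1 with h3 | h3
      · exact h3
      · exact absurd h3 (hwir g h2)
    have hxv : ¬ Reach F2 x v := by
      intro hcon
      have h3 : ∀ q, Reach F2 x q → q ∈ D.clu (G \ B) := by
        intro q hq
        induction hq with
        | refl => exact hx
        | @tail a b _ hs ih =>
          obtain ⟨g, ⟨hg, _⟩, hg'⟩ := hs
          rcases hg with hg | hg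
          · exact reach_clu (S := {g}) (fun g' h => Or.inl (by rw [Set.mem_singleton_iff.mp h]; exact hg)) ih
              (Adj.reach ⟨g, rfl, hg'⟩)
          · exfalso
            rcases hg' with ⟨rfl, _⟩ | ⟨_, rfl⟩
            · exact hg.2.1 ih
            · exact hg.2.2 ih
      exact hv (h3 v hcon)
    have hsb : ∃ w' ∈ bdR (z.1 - R) (z.1 + R) (z.2 - R) (z.2 + R), Reach F2 (src e) w' := by
      rcases hEn with ⟨h1, _⟩ | ⟨_, h1⟩
      · rw [← h1]; exact hxb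
      · rw [← h1]; exact hvb
    have htb : ∃ w' ∈ bdR (z.1 - R) (z.1 + R) (z.2 - R) (z.2 + R), Reach F2 (tgt e) w' := by
      rcases hEn with ⟨_, h1⟩ | ⟨h1, _⟩
      · rw [← h1]; exact hvb
      · rw [← h1]; exact hxb
    have hst : ¬ Reach F2 (src e) (tgt e) := by
      intro hcon
      rcases hEn with ⟨h1, h2⟩ | ⟨h1, h2⟩
      · rw [← h1, ← h2] at hcon; exact hxv hcon
      · rw [← h1, ← h2] at hcon; exact hxv hcon.symm
    have hsep := dual_sep hF2Q heQ heF2 hsb htb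
    obtain ⟨g0, hg0, hd0⟩ := dual_arm hF2Q heQ heF2 hsb htb hst (Or.inl ⟨rfl, rfl⟩)
    obtain ⟨g1, hg1, hd1⟩ := dual_arm hF2Q heQ heF2 hsb htb hst (Or.inr ⟨rfl, rfl⟩)
    set S : Set Edg := (↑(RE (z.1 - R) (z.1 + R) (z.2 - R) (z.2 + R)) \ F2) \ {e} with hS
    have hSU : (↑(blk z R) : Set Edg) \ ↑D.edges ⊆ S := by
      rintro g ⟨h1, h2⟩
      refine ⟨⟨h1, fun h3 => h2 (hG (hF2G h3))⟩, ?_⟩
      intro h3
      rw [Set.mem_singleton_iff] at h3
      rw [h3] at h2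
      exact h2 (hG heG)
    have hUS : S \ ↑D.edges ⊆ (↑(blk z R) : Set Edg) \ ↑D.edges := by
      rintro g ⟨h1, h2⟩
      exact ⟨h1.1.1, h2⟩
    have hout : ∀ f g : Vtx, sd f z ≤ d + 1 → g ∈ outF (z.1 - R) (z.1 + R) (z.2 - R) (z.2 + R) →
        DReach (S ∩ ↑D.edges) f g → DAr D z d R G := by
      intro f g hf hg hfg
      obtain ⟨f', hf', hfg'⟩ := dlast_exit hf hfg
      refine ⟨f', g, hf', ?_, hfg'.mono ?_⟩
      · unfold sd
        rcases hg with h | h | h | h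
        · exact le_trans (by rw [le_abs]; omega) (le_max_left _ _)
        · exact le_trans (by rw [le_abs]; omega) (le_max_left _ _)
        · exact le_trans (by rw [le_abs]; omega) (le_max_right _ _)
        · exact le_trans (by rw [le_abs]; omega) (le_max_right _ _)
      · rintro g' ⟨⟨h1, h2⟩, h3⟩
        refine ⟨h2, ?_, hAN g' h1.1.1 h3⟩
        intro h4
        refine h1.1.2 ⟨Or.inl ?_, h1.1.1⟩
        exact Finset.mem_coe.mpr (Finset.mem_sdiff.mpr ⟨h4, fun h5 => h3 (hB h5)⟩)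
    have hfe := face_blk heb
    rcases dual_dich (E := ↑D.edges) hd0 with h0 | ⟨e0, he0, h0⟩
    · exact hout _ g0 hfe.1 hg0 h0
    · rcases dual_dich (E := ↑D.edges) hd1 with h1 | ⟨e1, he1, h1⟩
      · exact hout _ g1 hfe.2 hg1 h1
      · exfalso
        apply hsep
        refine h0.trans (DReach.trans ?_ h1.symm)
        exact (out_join (by omega) hN (hUS he0) (hUS he1)).mono hSU

end Pool.Agent.N954.PN
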